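import Mathlib

/-!
# The zeros of Coulomb wave functions are not increasing in `L` for positive `η`
-/

open Topology Filter Finset

namespace Pool.Agent.Results.MP_75022b_an.FirstZeroNotIncreasing

/-- The rising factorial `(a)_k = a (a+1) ... (a+k-1)`. -/
noncomputable def rise (a : ℂ) (k : ℕ) : ℂ := ∏ j ∈ range k, (a + j)

/-- Kummer's confluent hypergeometric function. -/
noncomputable def kummer (a b z : ℂ) : ℂ :=
  ∑' k : ℕ, rise a k / rise b k * (z ^ k / (k.factorial : ℂ))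

/-- The regular Coulomb wave function `F_{L,η}(ρ)`. -/
noncomputable def coulombF (L η ρ : ℝ) : ℂ :=
  (((2 : ℝ) ^ L * Real.exp (-(Real.pi * η) / 2) *
      ‖Complex.Gamma ((L : ℂ) + 1 + Complex.I * η)‖ / Real.Gamma (2 * L + 2) : ℝ) : ℂ) *
    ((ρ ^ (L + 1) : ℝ) : ℂ) * Complex.exp (-Complex.I * ρ) *
    kummer ((L : ℂ) + 1 - Complex.I * η) (2 * L + 2) (2 * Complex.I * ρ)

/-- The set of the positive zeros of `F_{L,η}`. -/
def zeros (L η : ℝ) : Set ℝ := {ρ | 0 < ρ ∧ coulombF L η ρ = 0}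

/-- terms of the renormalised series -/
noncomputable def g (η : ℝ) : ℕ → ℝ → ℝ → ℂ
  | 0, t, _ => (t : ℂ)
  | (k + 1), t, ρ => rise ((t : ℂ) - Complex.I * η) (k + 1) / (2 * rise (2 * t + 1) k) *
      ((2 * Complex.I * ρ) ^ (k + 1) / ((k + 1).factorial : ℂ))

/-- the renormalised series -/
noncomputable def G (η t ρ : ℝ) : ℂ := ∑' k, g η k t ρ

lemma rise_succ' (a : ℂ) (k : ℕ) : rise a (k + 1) = a * rise (a + 1) k := by
  unfold rise
  rw [prod_range_succ']
  simp only [Nat.cast_add, Nat.cast_one, Nat.cast_zero, add_zero]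
  rw [mul_comm]
  congr 1
  refine prod_congr rfl fun j _ => ?_
  ring

lemma G_eq {η t : ℝ} (ht : 0 < t) (ρ : ℝ) :
    G η t ρ = t * kummer ((t : ℂ) - Complex.I * η) (2 * t) (2 * Complex.I * ρ) := by
  unfold G kummer
  rw [← tsum_mul_left]
  refine tsum_congr fun k => ?_
  have ht' : (t : ℂ) ≠ 0 := by exact_mod_cast ht.ne'
  cases k with
  | zero => simp [g, rise]
  | succ k =>
    simp only [g]
    rw [rise_succ' (2 * (t : ℂ)) k]
    field_simp

/-- majorant -/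
noncomputable def u (X : ℝ) : ℕ → ℝ
  | 0 => 1
  | (k + 1) => X ^ (k + 1) / (k.factorial : ℝ)

lemma summable_u (X : ℝ) : Summable (u X) := by
  rw [← summable_nat_add_iff 1]
  have := (Real.summable_pow_div_factorial X).mul_left X
  refine this.congr fun k => ?_
  simp only [u]
  rw [pow_succ']; ring

lemma norm_rise_le {η t : ℝ} (hη : 0 ≤ η) (ht0 : 0 ≤ t) (ht1 : t ≤ 1) (k : ℕ) :
    ‖rise ((t : ℂ) - Complex.I * η) k‖ ≤ (1 + η) ^ k * (k.factorial : ℝ) := by
  unfold rise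
  rw [norm_prod]
  have h1 : (1 + η) ^ k * (k.factorial : ℝ) = ∏ j ∈ range k, ((1 + η) * ((j : ℝ) + 1)) := by
    rw [prod_mul_distrib, prod_const, card_range]
    congr 1
    rw [← prod_range_add_one_eq_factorial]
    push_cast; rfl
  rw [h1]
  refine prod_le_prod (fun _ _ => norm_nonneg _) fun j _ => ?_
  have h2 : ‖(t : ℂ) - Complex.I * η + j‖ ≤ t + η + j := by
    calc _ ≤ ‖(t : ℂ) - Complex.I * η‖ + ‖(j : ℂ)‖ := norm_add_le _ _
      _ ≤ ‖(t : ℂ)‖ + ‖Complex.I * η‖ + ‖(j : ℂ)‖ := by gcongr; exact norm_sub_le _ _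
      _ = t + η + j := by
        rw [norm_mul, Complex.norm_I, Complex.norm_real, Complex.norm_real, Complex.norm_natCast,
          Real.norm_of_nonneg ht0, Real.norm_of_nonneg hη, one_mul]
  have h3 : (0 : ℝ) ≤ j := Nat.cast_nonneg j
  nlinarith [mul_nonneg hη h3]

lemma norm_rise_ge {t : ℝ} (ht0 : 0 ≤ t) (k : ℕ) :
    (k.factorial : ℝ) ≤ ‖rise (2 * (t : ℂ) + 1) k‖ := by
  unfold rise
  rw [norm_prod, ← prod_range_add_one_eq_factorial]
  push_cast
  refine prod_le_prod (fun j _ => by positivity) fun j _ => ?_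
  have h1 : (2 * (t : ℂ) + 1 + j) = ((2 * t + 1 + j : ℝ) : ℂ) := by push_cast; ring
  rw [h1, Complex.norm_real, Real.norm_of_nonneg (by positivity)]
  linarith

lemma rise_ne {t : ℝ} (ht0 : 0 ≤ t) (k : ℕ) : rise (2 * (t : ℂ) + 1) k ≠ 0 := by
  have := norm_rise_ge ht0 k
  rw [← norm_pos_iff]
  have h2 : (0 : ℝ) < k.factorial := by exact_mod_cast k.factorial_pos
  linarith

lemma norm_g_succ {η t ρ : ℝ} (hη : 0 ≤ η) (ht0 : 0 ≤ t) (ht1 : t ≤ 1) (k : ℕ) :
    ‖g η (k + 1) t ρ‖ ≤ (2 * (1 + η) * |ρ|) ^ (k + 1) / (k.factorial : ℝ) := by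
  simp only [g]
  rw [norm_mul, norm_div, norm_div, norm_mul, norm_pow, norm_mul, norm_mul, Complex.norm_I,
    Complex.norm_real, Real.norm_eq_abs, Complex.norm_natCast]
  have h2 : ‖(2 : ℂ)‖ = 2 := by simp
  rw [h2]
  have hk : (0 : ℝ) < k.factorial := by exact_mod_cast k.factorial_pos
  have hk1 : (0 : ℝ) < (k + 1).factorial := by exact_mod_cast (k + 1).factorial_pos
  have h3 := norm_rise_le hη ht0 ht1 (k + 1)
  have h4 := norm_rise_ge ht0 k
  calc _ ≤ ((1 + η) ^ (k + 1) * ((k + 1).factorial : ℝ)) / (1 * (k.factorial : ℝ)) *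
        ((2 * 1 * |ρ|) ^ (k + 1) / ((k + 1).factorial : ℝ)) := by
        gcongr
        norm_num
    _ = (2 * (1 + η) * |ρ|) ^ (k + 1) / (k.factorial : ℝ) := by
        rw [mul_one, one_mul, mul_pow, mul_pow, mul_pow]
        field_simp

lemma norm_g_le {η t ρ R : ℝ} (hη : 0 ≤ η) (ht0 : 0 ≤ t) (ht1 : t ≤ 1) (hρ : |ρ| ≤ R) (k : ℕ) :
    ‖g η k t ρ‖ ≤ u (2 * (1 + η) * R) k := by
  cases k with
  | zero => simp only [g, u]; rw [Complex.norm_real, Real.norm_of_nonneg ht0]; exact ht1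
  | succ k =>
    refine (norm_g_succ hη ht0 ht1 k).trans ?_
    simp only [u]
    gcongr

lemma summable_g {η t : ℝ} (ρ : ℝ) (hη : 0 ≤ η) (ht0 : 0 ≤ t) (ht1 : t ≤ 1) :
    Summable (fun k => g η k t ρ) :=
  Summable.of_norm_bounded (summable_u _) fun k => norm_g_le hη ht0 ht1 le_rfl k

lemma kummer_zero {η : ℝ} (hη : 0 ≤ η) (ρ : ℝ) :
    G η 0 ρ = (η * ρ : ℝ) * kummer (1 - Complex.I * η) 2 (2 * Complex.I * ρ) := by
  unfold G kummer
  rw [← tsum_mul_left]
  rw [(summable_g ρ hη le_rfl zero_le_one).tsum_eq_zero_add]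
  simp only [g, Complex.ofReal_zero, zero_add]
  refine tsum_congr fun k => ?_
  have h1 : rise (0 - Complex.I * η) (k + 1) = - Complex.I * η * rise (1 - Complex.I * η) k := by
    rw [rise_succ']; congr 1
    · ring
    · congr 1; ring
  have h2 : rise (2 * 0 + 1) k = (k.factorial : ℂ) := by
    unfold rise
    rw [← prod_range_add_one_eq_factorial]
    push_cast
    refine prod_congr rfl fun j _ => by ring
  have h3 : rise 2 k = ((k + 1).factorial : ℂ) := by
    have : rise 1 (k + 1) = ((k + 1).factorial : ℂ) := by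
      unfold rise
      rw [← prod_range_add_one_eq_factorial]
      push_cast
      refine prod_congr rfl fun j _ => by ring
    rw [rise_succ'] at this
    rw [← this, one_mul]
    norm_num
  rw [h1, h2, h3]
  have hk : ((k.factorial : ℕ) : ℂ) ≠ 0 := by exact_mod_cast k.factorial_ne_zero
  have hk1 : (((k + 1).factorial : ℕ) : ℂ) ≠ 0 := by exact_mod_cast (k + 1).factorial_ne_zero
  rw [pow_succ (2 * Complex.I * (ρ : ℂ)) k]
  push_cast
  field_simp
  ring_nf
  rw [Complex.I_sq]; ring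

lemma continuousOn_G {η : ℝ} (hη : 0 ≤ η) (R : ℝ) :
    ContinuousOn (fun q : ℝ × ℝ => G η q.1 q.2) (Set.Icc 0 1 ×ˢ Set.Icc (-R) R) := by
  unfold G
  refine continuousOn_tsum (u := u (2 * (1 + η) * R)) (fun k => ?_) (summable_u _) ?_
  · cases k with
    | zero => simp only [g]; fun_prop
    | succ k =>
      simp only [g]
      refine ContinuousOn.mul (ContinuousOn.div ?_ ?_ ?_) ?_
      · unfold rise; fun_prop
      · unfold rise; fun_prop
      · rintro ⟨t, ρ⟩ ⟨⟨h0, -⟩, -⟩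
        exact mul_ne_zero two_ne_zero (rise_ne h0 k)
      · fun_prop
  · rintro k ⟨t, ρ⟩ ⟨⟨h0, h1⟩, h2, h3⟩
    exact norm_g_le hη h0 h1 (abs_le.2 ⟨h2, h3⟩) k

lemma tendsto_G {η : ℝ} (hη : 0 ≤ η) {a b : ℕ → ℝ} {t ρ : ℝ} (ha : ∀ n, a n ∈ Set.Icc (0 : ℝ) 1)
    (hta : Tendsto a atTop (𝓝 t)) (htb : Tendsto b atTop (𝓝 ρ)) :
    Tendsto (fun n => G η (a n) (b n)) atTop (𝓝 (G η t ρ)) := by
  have ht : t ∈ Set.Icc (0 : ℝ) 1 := isClosed_Icc.mem_of_tendsto hta (Eventually.of_forall ha)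
  have h1 := continuousOn_G hη (|ρ| + 1) (t, ρ) ⟨ht, by
    have h2 := neg_abs_le ρ
    have h3 := le_abs_self ρ
    constructor <;> simp only <;> linarith⟩
  have h4 : Tendsto (fun n => (a n, b n)) atTop
      (𝓝[Set.Icc 0 1 ×ˢ Set.Icc (-(|ρ| + 1)) (|ρ| + 1)] (t, ρ)) := by
    refine tendsto_nhdsWithin_iff.2 ⟨hta.prodMk_nhds htb, ?_⟩
    have h5 : ∀ᶠ n in atTop, b n ∈ Set.Icc (-(|ρ| + 1)) (|ρ| + 1) := by
      refine htb.eventually_mem (Icc_mem_nhds ?_ ?_)
      · have h2 := neg_abs_le ρ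
        linarith
      · have h3 := le_abs_self ρ
        linarith
    filter_upwards [h5] with n hn using ⟨ha n, hn⟩
  exact h1.tendsto.comp h4

/-- lower bound near the origin -/
lemma small {η : ℝ} (hη : 0 < η) : ∃ δ > 0, ∀ t ∈ Set.Ioc (0 : ℝ) 1, ∀ ρ ∈ Set.Ioo (0 : ℝ) δ,
    G η t ρ ≠ 0 := by
  set C := ∑' k : ℕ, (2 * (1 + η)) ^ (k + 2) / ((k + 1).factorial : ℝ) with hC
  have hCs : Summable fun k : ℕ => (2 * (1 + η)) ^ (k + 2) / ((k + 1).factorial : ℝ) := by
    have := (summable_nat_add_iff 2).2 (summable_u (2 * (1 + η)))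
    exact this
  have hC0 : 0 ≤ C := tsum_nonneg fun k => by positivity
  refine ⟨min 1 (η / (C + 1)), by positivity, ?_⟩
  rintro t ⟨ht0, ht1⟩ ρ ⟨hρ0, hρ⟩ hG
  have hρ1 : ρ < 1 := lt_of_lt_of_le hρ (min_le_left _ _)
  have hρ2 : ρ < η / (C + 1) := lt_of_lt_of_le hρ (min_le_right _ _)
  have hs := summable_g ρ hη.le ht0.le ht1
  have h1 : G η t ρ = g η 0 t ρ + g η 1 t ρ + ∑' k, g η (k + 2) t ρ := by
    unfold G
    rw [← hs.sum_add_tsum_nat_add 2, sum_range_succ, sum_range_one]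
  have h2 : ‖∑' k, g η (k + 2) t ρ‖ ≤ ρ ^ 2 * C := by
    rw [hC, ← tsum_mul_left]
    refine tsum_of_norm_bounded ((hCs.mul_left _).hasSum) fun k => ?_
    refine (norm_g_succ hη.le ht0.le ht1 (k + 1)).trans ?_
    rw [abs_of_pos hρ0, mul_pow, ← mul_div_assoc]
    have h3 : ρ ^ (k + 1 + 1) ≤ ρ ^ 2 := pow_le_pow_of_le_one hρ0.le hρ1.le (by omega)
    rw [mul_comm (ρ ^ 2)]
    gcongr
  have h4 : (g η 0 t ρ + g η 1 t ρ).re = t + η * ρ := by
    simp only [g, rise]
    simp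
    field_simp
  have h5 : (∑' k, g η (k + 2) t ρ).re = - (t + η * ρ) := by
    have := congrArg Complex.re h1
    rw [hG, Complex.add_re, h4, Complex.zero_re] at this
    linarith
  have h6 := (Complex.abs_re_le_norm (∑' k, g η (k + 2) t ρ)).trans h2
  rw [h5, abs_neg, abs_of_pos (by positivity)] at h6
  rw [lt_div_iff₀ (by positivity)] at hρ2
  nlinarith

lemma mem_zeros_iff {L η ρ : ℝ} (hL : -1 < L) :
    ρ ∈ zeros L η ↔ 0 < ρ ∧ G η (L + 1) ρ = 0 := by
  have ht : 0 < L + 1 := by linarith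
  rw [G_eq ht]
  unfold zeros coulombF
  rw [Set.mem_ofPred_eq]
  refine and_congr_right fun hρ => ?_
  have h1 : (((2 : ℝ) ^ L * Real.exp (-(Real.pi * η) / 2) *
      ‖Complex.Gamma ((L : ℂ) + 1 + Complex.I * η)‖ / Real.Gamma (2 * L + 2) : ℝ) : ℂ) ≠ 0 := by
    have hG1 : 0 < ‖Complex.Gamma ((L : ℂ) + 1 + Complex.I * η)‖ := by
      rw [norm_pos_iff]
      refine Complex.Gamma_ne_zero_of_re_pos ?_
      simpa using ht
    have hG2 : 0 < Real.Gamma (2 * L + 2) := Real.Gamma_pos_of_pos (by linarith)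
    have : 0 < (2 : ℝ) ^ L * Real.exp (-(Real.pi * η) / 2) *
      ‖Complex.Gamma ((L : ℂ) + 1 + Complex.I * η)‖ / Real.Gamma (2 * L + 2) := by
      have := Real.rpow_pos_of_pos (show (0 : ℝ) < 2 by norm_num) L
      have := Real.exp_pos (-(Real.pi * η) / 2)
      positivity
    exact_mod_cast this.ne'
  have h2 : (((ρ ^ (L + 1) : ℝ)) : ℂ) ≠ 0 := by
    exact_mod_cast (Real.rpow_pos_of_pos hρ _).ne'
  have h3 := Complex.exp_ne_zero (-Complex.I * ρ)
  have h4 : ((L + 1 : ℝ) : ℂ) ≠ 0 := by exact_mod_cast ht.ne'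
  have h5 : (2 * ((L + 1 : ℝ) : ℂ)) = 2 * (L : ℂ) + 2 := by push_cast; ring
  have h6 : (((L + 1 : ℝ) : ℂ) - Complex.I * η) = (L : ℂ) + 1 - Complex.I * η := by push_cast; ring
  rw [h5, h6]
  constructor
  · intro h
    rcases mul_eq_zero.1 h with h | h
    · exact absurd h (mul_ne_zero (mul_ne_zero h1 h2) h3)
    · rw [h, mul_zero]
  · intro h
    rcases mul_eq_zero.1 h with h | h
    · exact absurd h h4
    · rw [h, mul_zero]

/-- For every `η > 0` the first positive zero of `F_{L,η}` is not an increasing function of `L`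
on `(-1, ∞)`: there are `-1 < L₁ < L₂` with `ρ_{L₁,η,1} ≥ ρ_{L₂,η,1}`. -/
theorem result (η : ℝ) (hη : 0 < η) :
    ¬ StrictMonoOn (fun L => sInf (zeros L η)) (Set.Ioi (-1)) := by
  intro hmono
  set r : ℝ → ℝ := fun t => sInf (zeros (t - 1) η) with hr
  have hbdd : ∀ L, BddBelow (zeros L η) := fun L => ⟨0, fun ρ h => h.1.le⟩
  have hnn : ∀ L, 0 ≤ sInf (zeros L η) := fun L => Real.sInf_nonneg fun ρ h => h.1.le
  have hrmono : ∀ s t, 0 < s → s < t → r s < r t := fun s t hs hst =>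
    hmono (Set.mem_Ioi.2 (by linarith)) (Set.mem_Ioi.2 (by linarith)) (by linarith)
  have hrpos : ∀ t, 0 < t → 0 < r t := fun t ht =>
    lt_of_le_of_lt (hnn _) (hrmono (t / 2) t (by linarith) (by linarith))
  have hmem : ∀ t, 0 < t → t ≤ 1 → G η t (r t) = 0 := by
    intro t ht ht1
    have hne : (zeros (t - 1) η).Nonempty := by
      by_contra h
      rw [Set.not_nonempty_iff_eq_empty] at h
      have := hrpos t ht
      simp only [hr, h, Real.sInf_empty, lt_irrefl] at this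
    obtain ⟨z, -, hz1, hz2⟩ := exists_seq_tendsto_sInf hne (hbdd _)
    have h1 : ∀ n, G η t (z n) = 0 := by
      intro n
      have := ((mem_zeros_iff (by linarith)).1 (hz2 n)).2
      rwa [sub_add_cancel] at this
    have h2 := tendsto_G hη.le (a := fun _ => t) (fun _ => ⟨ht.le, ht1⟩) tendsto_const_nhds hz1
    simp_rw [h1] at h2
    exact (tendsto_nhds_unique h2 tendsto_const_nhds)
  set a : ℕ → ℝ := fun n => 1 / ((n : ℝ) + 2) with ha
  have ha0 : ∀ n, 0 < a n := fun n => by simp only [ha]; positivity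
  have ha1 : ∀ n, a n < 1 := fun n => by
    simp only [ha]; rw [div_lt_one (by positivity)]
    have : (0 : ℝ) ≤ n := Nat.cast_nonneg n
    linarith
  have hat : Tendsto a atTop (𝓝 0) := by
    have := tendsto_one_div_add_atTop_nhds_zero_nat (𝕜 := ℝ)
    have h2 := this.comp (tendsto_add_atTop_nat 1)
    refine h2.congr fun n => ?_
    simp only [ha, Function.comp]
    push_cast; ring
  have haanti : Antitone (fun n => r (a n)) := by
    refine antitone_nat_of_succ_le fun n => (hrmono _ _ (ha0 _) ?_).le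
    simp only [ha]
    apply one_div_lt_one_div_of_lt (by positivity)
    push_cast; linarith
  have hb : BddBelow (Set.range fun n => r (a n)) := ⟨0, by rintro _ ⟨n, rfl⟩; exact hnn _⟩
  have hlim := tendsto_atTop_ciInf haanti hb
  set rs := ⨅ n, r (a n) with hrs
  have hrs0 : 0 ≤ rs := le_ciInf fun n => hnn _
  have hrs1 : rs < r 1 := lt_of_le_of_lt (ciInf_le hb 0) (hrmono _ _ (ha0 0) (ha1 0))
  have hG0 : G η 0 rs = 0 := by
    have h2 := tendsto_G hη.le (fun n => ⟨(ha0 n).le, (ha1 n).le⟩) hat hlim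
    simp_rw [fun n => hmem (a n) (ha0 n) (ha1 n).le] at h2
    exact (tendsto_nhds_unique h2 tendsto_const_nhds)
  rcases hrs0.eq_or_lt with h0 | h0
  · obtain ⟨δ, hδ, hsmall⟩ := small hη
    rw [← h0] at hlim
    obtain ⟨n, hn⟩ := (hlim.eventually (gt_mem_nhds hδ)).exists
    exact hsmall (a n) ⟨ha0 n, (ha1 n).le⟩ (r (a n)) ⟨hrpos _ (ha0 n), hn⟩
      (hmem _ (ha0 n) (ha1 n).le)
  · rw [kummer_zero hη.le] at hG0
    have h1 : (((η * rs : ℝ)) : ℂ) ≠ 0 := by exact_mod_cast (mul_pos hη h0).ne'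
    have h2 : kummer (1 - Complex.I * η) 2 (2 * Complex.I * rs) = 0 :=
      (mul_eq_zero.1 hG0).resolve_left h1
    have h3 : G η 1 rs = 0 := by
      rw [G_eq one_pos]
      have : (2 * ((1 : ℝ) : ℂ)) = 2 := by norm_num
      rw [this]
      simpa using h2
    have h4 : rs ∈ zeros (1 - 1) η := by
      rw [mem_zeros_iff (by norm_num)]
      exact ⟨h0, by rwa [sub_add_cancel]⟩
    exact absurd (csInf_le (hbdd _) h4) (not_le.2 hrs1)

end Pool.Agent.Results.MP_75022b_an.FirstZeroNotIncreasing
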