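import Mathlib

/-!
# Zeros of Coulomb wave functions are not monotone in `L`
-/

open Finset Filter Topology

namespace Pool.Agent.Results.MP_75022b_an.NotMonotone

/-- Kummer's confluent hypergeometric function `M(a,b,z)`. -/
noncomputable def kummerM (a b z : ℂ) : ℂ :=
  ∑' k : ℕ, ((ascPochhammer ℂ k).eval a / (ascPochhammer ℂ k).eval b) * (z ^ k / (k.factorial : ℂ))

/-- The normalising constant `C_L(η)`. -/
noncomputable def coulombC (L η : ℝ) : ℝ :=
  (2 : ℝ) ^ L * Real.exp (-(Real.pi * η / 2)) * ‖Complex.Gamma (L + 1 + Complex.I * η)‖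
    / Real.Gamma (2 * L + 2)

/-- The regular Coulomb wave function `F_{L,η}(ρ)`. -/
noncomputable def coulombF (L η ρ : ℝ) : ℂ :=
  (coulombC L η : ℂ) * (ρ : ℂ) ^ ((L : ℂ) + 1) * Complex.exp (-(Complex.I * ρ))
    * kummerM (L + 1 - Complex.I * η) (2 * L + 2) (2 * Complex.I * ρ)

/-- `r` is the `n`-th positive zero `ρ_{L,η,n}` of `F_{L,η}`. -/
def IsZeroNumber (L η : ℝ) (n : ℕ) (r : ℝ) : Prop :=
  0 < r ∧ coulombF L η r = 0 ∧
    ({x : ℝ | 0 < x ∧ x < r ∧ coulombF L η x = 0}.encard + 1 = n)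

/-! ### the real power series -/

/-- Coefficients of `e^{-iρ} M(l - iη, 2l, 2iρ)`, where `l = L + 1`. -/
noncomputable def A (l η : ℝ) : ℕ → ℝ
  | 0 => 1
  | 1 => η / l
  | (k + 2) => (2 * η * A l η (k + 1) - A l η k) / ((k + 2) * (k + 1 + 2 * l))

/-- coefficient sequence of `e^{-iz}` -/
noncomputable def eps : PowerSeries ℂ :=
  PowerSeries.mk fun k => (-Complex.I) ^ k / (k.factorial : ℂ)

/-- coefficient sequence of `M(a,b,2iz)` -/
noncomputable def mps (a b : ℂ) : PowerSeries ℂ :=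
  PowerSeries.mk fun k => ((ascPochhammer ℂ k).eval a / (ascPochhammer ℂ k).eval b)
    * ((2 * Complex.I) ^ k / (k.factorial : ℂ))

lemma eps_deriv : PowerSeries.derivative ℂ eps = PowerSeries.C (-Complex.I) * eps := by
  ext n
  rw [PowerSeries.coeff_derivative, PowerSeries.coeff_C_mul]
  simp only [eps, PowerSeries.coeff_mk]
  rw [Nat.factorial_succ, pow_succ]
  have h1 : ((n.factorial : ℕ) : ℂ) ≠ 0 := by exact_mod_cast n.factorial_ne_zero
  have h2 : ((n : ℂ) + 1) ≠ 0 := by exact_mod_cast n.succ_ne_zero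
  push_cast
  field_simp

lemma mps_ode {a b : ℂ} (hb : ∀ k : ℕ, b + k ≠ 0) :
    PowerSeries.X * PowerSeries.derivative ℂ (PowerSeries.derivative ℂ (mps a b))
      + PowerSeries.C b * PowerSeries.derivative ℂ (mps a b)
      - PowerSeries.C (2 * Complex.I) * (PowerSeries.X * PowerSeries.derivative ℂ (mps a b))
      - PowerSeries.C (2 * Complex.I * a) * mps a b = 0 := by
  have hrec : ∀ n : ℕ, ((n : ℂ) + 1) * (n + b) * PowerSeries.coeff (n + 1) (mps a b)
      = 2 * Complex.I * (n + a) * PowerSeries.coeff n (mps a b) := by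
    intro n
    have hb' : ∀ k : ℕ, (ascPochhammer ℂ k).eval b ≠ 0 := by
      intro k
      induction k with
      | zero => simp
      | succ k ih =>
        rw [ascPochhammer_succ_eval]
        exact mul_ne_zero ih (hb k)
    simp only [mps, PowerSeries.coeff_mk]
    rw [ascPochhammer_succ_eval, ascPochhammer_succ_eval, Nat.factorial_succ, pow_succ]
    have h1 : ((n.factorial : ℕ) : ℂ) ≠ 0 := by exact_mod_cast n.factorial_ne_zero
    have h2 : ((n : ℂ) + 1) ≠ 0 := by exact_mod_cast n.succ_ne_zero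
    have h3 := hb' n
    have h4 := hb n
    push_cast
    field_simp
    ring
  ext n
  simp only [map_sub, map_add, PowerSeries.coeff_C_mul, map_zero]
  cases n with
  | zero =>
    simp only [PowerSeries.coeff_zero_X_mul, PowerSeries.coeff_derivative]
    have := hrec 0
    push_cast at this ⊢
    linear_combination this
  | succ n =>
    simp only [PowerSeries.coeff_succ_X_mul, PowerSeries.coeff_derivative]
    have := hrec (n + 1)
    push_cast at this ⊢
    linear_combination this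

lemma f_ode {l η : ℝ} (hl : 0 < l) :
    let f := eps * mps (l - Complex.I * η) (2 * l)
    PowerSeries.X * PowerSeries.derivative ℂ (PowerSeries.derivative ℂ f)
      + PowerSeries.C (2 * l : ℂ) * PowerSeries.derivative ℂ f
      + PowerSeries.X * f - PowerSeries.C (2 * η : ℂ) * f = 0 := by
  intro f
  have hb : ∀ k : ℕ, (2 * l : ℂ) + k ≠ 0 := by
    intro k h
    have h1 : (2 * l + k : ℝ) = 0 := by exact_mod_cast h
    have h2 : (0 : ℝ) ≤ k := Nat.cast_nonneg k
    linarith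
  have hm := mps_ode (a := l - Complex.I * η) hb
  set m := mps (l - Complex.I * η) (2 * l) with hmdef
  have he := eps_deriv
  have h1 : PowerSeries.derivative ℂ f = PowerSeries.C (-Complex.I) * eps * m
      + eps * PowerSeries.derivative ℂ m := by
    simp only [f, Derivation.leibniz, smul_eq_mul, he]
    ring
  have hCI : PowerSeries.derivative ℂ (PowerSeries.C (-Complex.I) : PowerSeries ℂ) = 0 := by
    exact PowerSeries.derivative_C
  have h2 : PowerSeries.derivative ℂ (PowerSeries.derivative ℂ f)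
      = PowerSeries.C (-Complex.I) * PowerSeries.C (-Complex.I) * eps * m
        + 2 * PowerSeries.C (-Complex.I) * eps * PowerSeries.derivative ℂ m
        + eps * PowerSeries.derivative ℂ (PowerSeries.derivative ℂ m) := by
    rw [h1]
    simp only [map_add, Derivation.leibniz, smul_eq_mul, he, hCI]
    ring
  rw [h2, h1]
  simp only [f]
  have hII : (PowerSeries.C (-Complex.I) * PowerSeries.C (-Complex.I) : PowerSeries ℂ) = -1 := by
    rw [← map_mul, neg_mul_neg, Complex.I_mul_I, map_neg, map_one]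
  have hc1 : (PowerSeries.C (2 * Complex.I) : PowerSeries ℂ) = -2 * PowerSeries.C (-Complex.I) := by
    rw [map_mul, map_neg, map_ofNat]
    ring
  have hc2 : (PowerSeries.C (2 * Complex.I * (l - Complex.I * η)) : PowerSeries ℂ)
      = -PowerSeries.C (-Complex.I) * PowerSeries.C (2 * l : ℂ) + PowerSeries.C (2 * η : ℂ) := by
    rw [← map_neg, ← map_mul, ← map_add]
    congr 1
    linear_combination (-2 * (η : ℂ)) * Complex.I_mul_I
  rw [hc1, hc2] at hm
  linear_combination eps * hm + (PowerSeries.X * eps * m) * hII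

lemma coeff_f {l η : ℝ} (hl : 0 < l) (k : ℕ) :
    PowerSeries.coeff k (eps * mps (l - Complex.I * η) (2 * l)) = (A l η k : ℂ) := by
  set f := eps * mps (l - Complex.I * η) (2 * l) with hf
  have hode := f_ode (η := η) hl
  simp only [← hf] at hode
  have hl' : (l : ℂ) ≠ 0 := by exact_mod_cast hl.ne'
  have h0 : PowerSeries.coeff 0 f = 1 := by
    rw [hf, PowerSeries.coeff_zero_eq_constantCoeff_apply, map_mul,
      ← PowerSeries.coeff_zero_eq_constantCoeff_apply, ← PowerSeries.coeff_zero_eq_constantCoeff_apply]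
    simp [eps, mps]
  have h1 : PowerSeries.coeff 1 f = (η / l : ℂ) := by
    have := congrArg (PowerSeries.coeff 0) hode
    simp only [map_sub, map_add, PowerSeries.coeff_C_mul, map_zero, PowerSeries.coeff_zero_X_mul,
      PowerSeries.coeff_derivative, h0] at this
    push_cast at this
    field_simp
    linear_combination (1 / 2) * this
  have hstep : ∀ k : ℕ, PowerSeries.coeff (k + 2) f = (2 * η * PowerSeries.coeff (k + 1) f
      - PowerSeries.coeff k f) / ((k + 2) * (k + 1 + 2 * l)) := by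
    intro k
    have := congrArg (PowerSeries.coeff (k + 1)) hode
    simp only [map_sub, map_add, PowerSeries.coeff_C_mul, map_zero, PowerSeries.coeff_succ_X_mul,
      PowerSeries.coeff_derivative] at this
    push_cast at this
    have h2 : ((k : ℂ) + 2) ≠ 0 := by
      have : ((k + 2 : ℕ) : ℂ) ≠ 0 := Nat.cast_ne_zero.mpr (by omega)
      exact_mod_cast this
    have h3 : ((k : ℂ) + 1 + 2 * l) ≠ 0 := by
      intro h
      have h1 : (k + 1 + 2 * l : ℝ) = 0 := by exact_mod_cast h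
      have h2 : (0 : ℝ) ≤ k := Nat.cast_nonneg k
      linarith
    rw [eq_div_iff (mul_ne_zero h2 h3)]
    linear_combination this
  have key : ∀ k : ℕ, PowerSeries.coeff k f = (A l η k : ℂ) ∧
      PowerSeries.coeff (k + 1) f = (A l η (k + 1) : ℂ) := by
    intro k
    induction k with
    | zero =>
      refine ⟨by rw [h0]; simp [A], ?_⟩
      rw [zero_add, h1]
      simp [A]
    | succ k ih =>
      refine ⟨ih.2, ?_⟩
      rw [hstep, ih.1, ih.2, A]
      push_cast
      rfl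
  exact (key k).1



/-! ### summation -/

lemma summable_m (a : ℂ) {b : ℝ} (hb : 0 < b) (z : ℂ) :
    Summable fun k : ℕ => ‖((ascPochhammer ℂ k).eval a / (ascPochhammer ℂ k).eval (b : ℂ))
      * (z ^ k / (k.factorial : ℂ))‖ := by
  set c : ℝ := max (‖a‖ / b) 1 with hc
  have hc1 : 1 ≤ c := le_max_right _ _
  have hbound : ∀ k : ℕ, ‖(ascPochhammer ℂ k).eval a / (ascPochhammer ℂ k).eval (b : ℂ)‖ ≤ c ^ k := by
    intro k
    induction k with
    | zero => simp
    | succ k ih =>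
      rw [ascPochhammer_succ_eval, ascPochhammer_succ_eval, mul_div_mul_comm, norm_mul, pow_succ]
      refine mul_le_mul ih ?_ (norm_nonneg _) (by positivity)
      have hk : (0 : ℝ) ≤ k := Nat.cast_nonneg k
      have h1 : ‖(b : ℂ) + k‖ = b + k := by
        have : (b : ℂ) + k = ((b + k : ℝ) : ℂ) := by push_cast; rfl
        rw [this, Complex.norm_real, Real.norm_eq_abs, abs_of_pos (by linarith)]
      rw [norm_div, h1, div_le_iff₀ (by linarith)]
      have h2 : ‖a + k‖ ≤ ‖a‖ + k := by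
        refine (norm_add_le _ _).trans ?_
        rw [Complex.norm_natCast]
      have h3 : ‖a‖ ≤ c * b := by
        have : ‖a‖ / b ≤ c := le_max_left _ _
        rwa [div_le_iff₀ hb] at this
      nlinarith
  refine Summable.of_nonneg_of_le (fun _ => norm_nonneg _) (fun k => ?_)
    (Real.summable_pow_div_factorial (c * ‖z‖))
  rw [norm_mul, norm_div (z ^ k), norm_pow z, Complex.norm_natCast, mul_pow, mul_div_assoc]
  exact mul_le_mul_of_nonneg_right (hbound k) (by positivity)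

/-- The power series representation. -/
lemma coulomb_series {L η ρ : ℝ} (hL : -1 < L) :
    Complex.exp (-(Complex.I * ρ))
      * kummerM (L + 1 - Complex.I * η) (2 * L + 2) (2 * Complex.I * ρ)
      = ((∑' k : ℕ, A (L + 1) η k * ρ ^ k : ℝ) : ℂ) := by
  have hl : 0 < L + 1 := by linarith
  have hs1 : Summable fun k : ℕ => ‖(-(Complex.I * ρ)) ^ k / (k.factorial : ℂ)‖ :=
    NormedSpace.norm_expSeries_div_summable _
  have hs2 := summable_m ((L : ℂ) + 1 - Complex.I * η) (b := 2 * L + 2) (by linarith)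
    (2 * Complex.I * ρ)
  have hcast : (((2 * L + 2 : ℝ)) : ℂ) = 2 * L + 2 := by push_cast; rfl
  rw [hcast] at hs2
  have hexp : Complex.exp (-(Complex.I * ρ)) = ∑' k : ℕ, (-(Complex.I * ρ)) ^ k / (k.factorial : ℂ) := by
    rw [Complex.exp_eq_exp_ℂ, NormedSpace.exp_eq_tsum_div]
  unfold kummerM
  rw [hexp, tsum_mul_tsum_eq_tsum_sum_antidiagonal_of_summable_norm hs1 hs2, Complex.ofReal_tsum]
  congr 1
  funext k
  have hc := coeff_f (η := η) hl k
  rw [PowerSeries.coeff_mul] at hc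
  push_cast at hc ⊢
  rw [← hc, Finset.sum_mul]
  refine Finset.sum_congr rfl fun p hp => ?_
  have hpk : p.1 + p.2 = k := Finset.HasAntidiagonal.mem_antidiagonal.mp hp
  simp only [eps, mps, PowerSeries.coeff_mk]
  rw [← hpk, pow_add]
  have e1 : (2 : ℂ) * (L + 1) = 2 * L + 2 := by ring
  rw [e1]
  have e2 : (-(Complex.I * ρ)) ^ p.1 = (-Complex.I) ^ p.1 * (ρ : ℂ) ^ p.1 := by
    rw [← mul_pow]; ring
  have e3 : (2 * Complex.I * ρ) ^ p.2 = (2 * Complex.I) ^ p.2 * (ρ : ℂ) ^ p.2 := by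
    rw [← mul_pow]
  rw [e2, e3]
  ring

/-- The real power series. -/
noncomputable def phi (l η ρ : ℝ) : ℝ := ∑' k : ℕ, A l η k * ρ ^ k

lemma coulombC_ne {L η : ℝ} (hL : -1 < L) : coulombC L η ≠ 0 := by
  unfold coulombC
  have h1 : Complex.Gamma (L + 1 + Complex.I * η) ≠ 0 := by
    apply Complex.Gamma_ne_zero_of_re_pos
    simp
    linarith
  have h2 : Real.Gamma (2 * L + 2) ≠ 0 := (Real.Gamma_pos_of_pos (by linarith)).ne'
  have h3 : (2 : ℝ) ^ L ≠ 0 := (Real.rpow_pos_of_pos two_pos L).ne'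
  exact div_ne_zero (mul_ne_zero (mul_ne_zero h3 (Real.exp_ne_zero _)) (norm_ne_zero_iff.mpr h1)) h2

lemma coulombF_eq_zero_iff {L η ρ : ℝ} (hL : -1 < L) (hρ : 0 < ρ) :
    coulombF L η ρ = 0 ↔ phi (L + 1) η ρ = 0 := by
  unfold coulombF
  rw [mul_assoc, coulomb_series hL]
  have h1 : (coulombC L η : ℂ) ≠ 0 := by exact_mod_cast coulombC_ne hL
  have h2 : (ρ : ℂ) ^ ((L : ℂ) + 1) ≠ 0 := by
    rw [Ne, Complex.cpow_eq_zero_iff]
    rintro ⟨h, _⟩
    exact hρ.ne' (by exact_mod_cast h)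
  rw [mul_eq_zero, mul_eq_zero]
  constructor
  · rintro ((h | h) | h)
    · exact absurd h h1
    · exact absurd h h2
    · exact_mod_cast h
  · intro h
    right
    exact_mod_cast h

/-! ### tail bounds -/

lemma growth {l η c T : ℝ} (hl : 0 < l) (hη : 0 ≤ η) (hT : 0 < T) {K : ℕ}
    (hK : 2 * η * T + T ^ 2 ≤ (K + 2) * (K + 1)) (h0 : |A l η K| * T ^ K ≤ c)
    (h1 : |A l η (K + 1)| * T ^ (K + 1) ≤ c) : ∀ k ≥ K, |A l η k| * T ^ k ≤ c := by
  have key : ∀ j : ℕ, |A l η (K + j)| * T ^ (K + j) ≤ c ∧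
      |A l η (K + j + 1)| * T ^ (K + j + 1) ≤ c := by
    intro j
    induction j with
    | zero => exact ⟨h0, h1⟩
    | succ j ih =>
      refine ⟨ih.2, ?_⟩
      have hc : 0 ≤ c := (mul_nonneg (abs_nonneg _) (pow_nonneg hT.le _)).trans h0
      have e : A l η (K + (j + 1) + 1) = (2 * η * A l η (K + j + 1) - A l η (K + j))
          / (((K + j : ℕ) + 2) * ((K + j : ℕ) + 1 + 2 * l)) := by
        have : K + (j + 1) + 1 = (K + j) + 2 := by ring
        rw [this, A]
      have hKj : (0 : ℝ) ≤ ((K + j : ℕ) : ℝ) := Nat.cast_nonneg _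
      have hD : 0 < (((K + j : ℕ) : ℝ) + 2) * (((K + j : ℕ) : ℝ) + 1 + 2 * l) := by positivity
      rw [e, abs_div, abs_of_pos hD, div_mul_eq_mul_div, div_le_iff₀ hD]
      have h2 : |2 * η * A l η (K + j + 1) - A l η (K + j)|
          ≤ 2 * η * |A l η (K + j + 1)| + |A l η (K + j)| := by
        refine (abs_sub _ _).trans ?_
        rw [abs_mul, abs_of_nonneg (by positivity : (0 : ℝ) ≤ 2 * η)]
      have h3 : T ^ (K + (j + 1) + 1) = T * T ^ (K + j + 1) := by
        rw [← pow_succ']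
        congr 1
      have h4 : T ^ (K + (j + 1) + 1) = T ^ 2 * T ^ (K + j) := by
        rw [← pow_add]
        congr 1
        ring
      have hTp : 0 < T ^ (K + (j + 1) + 1) := by positivity
      calc |2 * η * A l η (K + j + 1) - A l η (K + j)| * T ^ (K + (j + 1) + 1)
          ≤ (2 * η * |A l η (K + j + 1)| + |A l η (K + j)|) * T ^ (K + (j + 1) + 1) :=
            mul_le_mul_of_nonneg_right h2 hTp.le
        _ = 2 * η * T * (|A l η (K + j + 1)| * T ^ (K + j + 1))
            + T ^ 2 * (|A l η (K + j)| * T ^ (K + j)) := by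
            rw [add_mul]
            nth_rewrite 1 [h3]
            rw [h4]
            ring
        _ ≤ 2 * η * T * c + T ^ 2 * c := by
            have i1 := ih.1
            have i2 := ih.2
            gcongr
        _ = (2 * η * T + T ^ 2) * c := by ring
        _ ≤ ((K + 2) * (K + 1)) * c := by gcongr
        _ ≤ c * ((((K + j : ℕ) : ℝ) + 2) * (((K + j : ℕ) : ℝ) + 1 + 2 * l)) := by
            rw [mul_comm]
            push_cast
            have hj : (0 : ℝ) ≤ j := Nat.cast_nonneg _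
            have hK0 : (0 : ℝ) ≤ K := Nat.cast_nonneg _
            refine mul_le_mul_of_nonneg_left ?_ hc
            exact mul_le_mul (by linarith) (by linarith) (by linarith) (by linarith)
  intro k hk
  obtain ⟨j, rfl⟩ := Nat.exists_eq_add_of_le hk
  exact (key j).1

lemma tail {B : ℕ → ℝ} {c T ρ : ℝ} {K : ℕ} (hB : ∀ k ≥ K, |B k| * T ^ k ≤ c) (hT : 0 < T)
    (hρ : 0 ≤ ρ) (hlt : ρ < T) :
    (Summable fun k => B k * ρ ^ k) ∧
      |(∑' k, B k * ρ ^ k) - ∑ k ∈ range K, B k * ρ ^ k| ≤ c * (ρ / T) ^ K / (1 - ρ / T) := by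
  have hq1 : ρ / T < 1 := (div_lt_one hT).mpr hlt
  have hq0 : 0 ≤ ρ / T := div_nonneg hρ hT.le
  have hb : ∀ k, ‖B (k + K) * ρ ^ (k + K)‖ ≤ c * (ρ / T) ^ K * (ρ / T) ^ k := by
    intro k
    have h1 := hB (k + K) (by omega)
    rw [norm_mul, Real.norm_eq_abs, Real.norm_eq_abs, abs_of_nonneg (pow_nonneg hρ _)]
    have h2 : ρ ^ (k + K) = T ^ (k + K) * (ρ / T) ^ (k + K) := by
      rw [← mul_pow, mul_div_cancel₀ _ hT.ne']
    have h3 : (ρ / T) ^ K * (ρ / T) ^ k = (ρ / T) ^ (k + K) := by rw [← pow_add, add_comm]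
    rw [h2, mul_assoc c, h3, ← mul_assoc]
    exact mul_le_mul_of_nonneg_right h1 (pow_nonneg hq0 _)
  have hg : HasSum (fun k => c * (ρ / T) ^ K * (ρ / T) ^ k) (c * (ρ / T) ^ K * (1 - ρ / T)⁻¹) :=
    (hasSum_geometric_of_lt_one hq0 hq1).mul_left _
  have hs : Summable fun k => B (k + K) * ρ ^ (k + K) :=
    Summable.of_norm_bounded hg.summable hb
  have hs' : Summable fun k => B k * ρ ^ k := (summable_nat_add_iff K).mp hs
  refine ⟨hs', ?_⟩
  rw [← hs'.sum_add_tsum_nat_add K, add_sub_cancel_left, ← Real.norm_eq_abs, div_eq_mul_inv]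
  exact tsum_of_norm_bounded hg hb



/-! ### explicit coefficients -/

lemma AP0 : A (1 / 10000) (1 / 100) 0 = (1 : ℝ) := by
  norm_num [A]

lemma AP1 : A (1 / 10000) (1 / 100) 1 = (100 : ℝ) := by
  norm_num [A]

lemma AP2 : A (1 / 10000) (1 / 100) 2 = (2500 / 5001 : ℝ) := by
  rw [A, AP1, AP0]; norm_num

lemma AP3 : A (1 / 10000) (1 / 100) 3 = (-250000 / 15003 : ℝ) := by
  rw [A, AP2, AP1]; norm_num

lemma AP4 : A (1 / 10000) (1 / 100) 4 = (-15625000 / 225060003 : ℝ) := by
  rw [A, AP3, AP2]; norm_num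

lemma AP5 : A (1 / 10000) (1 / 100) 5 = (3749937500000 / 4501425120003 : ℝ) := by
  rw [A, AP4, AP3]; norm_num

lemma AP6 : A (1 / 10000) (1 / 100) 6 = (968785937500000 / 337620388275585009 : ℝ) := by
  rw [A, AP5, AP4]; norm_num

lemma AP7 : A (1 / 10000) (1 / 100) 7 = (-1406185932968750000000 / 70902644880590780985063 : ℝ) := by
  rw [A, AP6, AP5]; norm_num

lemma AP8 : A (1 / 10000) (1 / 100) 8 = (-144734716897460937500000 / 2481663473465557925258190063 : ℝ) := by
  rw [A, AP7, AP6]; norm_num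

lemma AP9 : A (1 / 10000) (1 / 100) 9 = (6151723600097656250000000 / 22334971261190021327323710567 : ℝ) := by
  rw [A, AP8, AP7]; norm_num

lemma AP10 : A (1 / 10000) (1 / 100) 10 = (37517024317871093750000000 / 52899791669726955250047068380293 : ℝ) := by
  rw [A, AP9, AP8]; norm_num

lemma AP11 : A (1 / 10000) (1 / 100) 11 = (-1384097286293769189453125000000000 / 552813879005105655296639124411353331237 : ℝ) := by
  rw [A, AP10, AP9]; norm_num

lemma AP12 : A (1 / 10000) (1 / 100) 12 = (-524678363632138435668945312500000000 / 91215948477479448440911345445246533714098711 : ℝ) := by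
  rw [A, AP11, AP10]; norm_num

lemma AP13 : A (1 / 10000) (1 / 100) 13 = (1141848554815290773993103027343750000000000 / 71149625619764177016740581294783084501935277863243 : ℝ) := by
  rw [A, AP12, AP11]; norm_num

lemma AQ0 : A (1 / 8) (1 / 100) 0 = (1 : ℝ) := by
  norm_num [A]

lemma AQ1 : A (1 / 8) (1 / 100) 1 = (2 / 25 : ℝ) := by
  norm_num [A]

lemma AQ2 : A (1 / 8) (1 / 100) 2 = (-1248 / 3125 : ℝ) := by
  rw [A, AQ1, AQ0]; norm_num

lemma AQ3 : A (1 / 8) (1 / 100) 3 = (-27496 / 2109375 : ℝ) := by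
  rw [A, AQ2, AQ1]; norm_num

lemma AQ4 : A (1 / 8) (1 / 100) 4 = (21046252 / 685546875 : ℝ) := by
  rw [A, AQ3, AQ2]; norm_num

lemma AQ5 : A (1 / 8) (1 / 100) 5 = (6115768 / 9521484375 : ℝ) := by
  rw [A, AQ4, AQ3]; norm_num

lemma AQ6 : A (1 / 8) (1 / 100) 6 = (-131484033088 / 134967041015625 : ℝ) := by
  rw [A, AQ5, AQ4]; norm_num

lemma AQ7 : A (1 / 8) (1 / 100) 7 = (-8932069206176 / 590480804443359375 : ℝ) := by
  rw [A, AQ6, AQ5]; norm_num

lemma AQ8 : A (1 / 8) (1 / 100) 8 = (2396100014066152 / 142699527740478515625 : ℝ) := by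
  rw [A, AQ7, AQ6]; norm_num

lemma AQ9 : A (1 / 8) (1 / 100) 9 = (661951617532156912 / 3178631980419158935546875 : ℝ) := by
  rw [A, AQ8, AQ7]; norm_num

lemma AQ10 : A (1 / 8) (1 / 100) 10 = (-10301136830303647232 / 56761285364627838134765625 : ℝ) := by
  rw [A, AQ9, AQ8]; norm_num

lemma AQ11 : A (1 / 8) (1 / 100) 11 = (-2806203711592070820416 / 1493294815801084041595458984375 : ℝ) := by
  rw [A, AQ10, AQ9]; norm_num



/-! ### first zeros -/

lemma phi_cont {l η c T R : ℝ} {K : ℕ} (hB : ∀ k ≥ K, |A l η k| * T ^ k ≤ c) (hT : 0 < T)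
    (hR : 0 ≤ R) (hlt : R < T) : ContinuousOn (phi l η) (Set.Icc 0 R) := by
  have hB' : ∀ k ≥ K, |(|A l η k|)| * T ^ k ≤ c := by
    intro k hk
    rw [abs_abs]
    exact hB k hk
  have hs := (tail (B := fun k => |A l η k|) hB' hT hR hlt).1
  refine continuousOn_tsum (fun k => ?_) hs (fun k x hx => ?_)
  · exact (continuous_const.mul (continuous_pow k)).continuousOn
  · rw [norm_mul, norm_pow, Real.norm_eq_abs, Real.norm_eq_abs, abs_of_nonneg hx.1]
    exact mul_le_mul_of_nonneg_left (pow_le_pow_left₀ hx.1 hx.2 k) (abs_nonneg _)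

lemma phi_zero (l η : ℝ) : phi l η 0 = 1 := by
  unfold phi
  rw [tsum_eq_single 0]
  · simp [A]
  · intro k hk
    rw [zero_pow hk, mul_zero]

lemma first_zero {f : ℝ → ℝ} {R : ℝ} (hR : 0 < R) (hc : ContinuousOn f (Set.Icc 0 R))
    (h0 : 0 < f 0) (hfR : f R < 0) :
    ∃ r, 0 < r ∧ r < R ∧ f r = 0 ∧ ∀ x, 0 < x → x < r → f x ≠ 0 := by
  have hne : (Set.Icc 0 R ∩ f ⁻¹' {0}).Nonempty := by
    obtain ⟨x, hx, hx0⟩ := intermediate_value_Icc' hR.le hc (⟨hfR.le, h0.le⟩ : (0 : ℝ) ∈ Set.Icc _ _)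
    exact ⟨x, hx, hx0⟩
  have hclosed : IsClosed (Set.Icc 0 R ∩ f ⁻¹' {0}) :=
    hc.preimage_isClosed_of_isClosed isClosed_Icc isClosed_singleton
  have hcomp : IsCompact (Set.Icc 0 R ∩ f ⁻¹' {0}) :=
    isCompact_Icc.of_isClosed_subset hclosed Set.inter_subset_left
  obtain ⟨r, ⟨hr, hr0⟩, hmin⟩ := hcomp.exists_isLeast hne
  have hr0' : f r = 0 := hr0
  have hrpos : 0 < r := by
    rcases hr.1.eq_or_lt with h | h
    · rw [← h] at hr0'
      exact absurd hr0' h0.ne'
    · exact h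
  have hrR : r < R := by
    rcases hr.2.eq_or_lt with h | h
    · rw [h] at hr0'
      exact absurd hr0' hfR.ne
    · exact h
  refine ⟨r, hrpos, hrR, hr0', fun x hx1 hx2 hx3 => ?_⟩
  have := hmin ⟨⟨hx1.le, hx2.le.trans hrR.le⟩, hx3⟩
  linarith

lemma isZeroNumber_one {L η r : ℝ} (hL : -1 < L) (hr : 0 < r) (h0 : phi (L + 1) η r = 0)
    (hfirst : ∀ x, 0 < x → x < r → phi (L + 1) η x ≠ 0) : IsZeroNumber L η 1 r := by
  refine ⟨hr, (coulombF_eq_zero_iff hL hr).mpr h0, ?_⟩
  have : {x : ℝ | 0 < x ∧ x < r ∧ coulombF L η x = 0} = ∅ := by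
    ext x
    simp only [Set.mem_ofPred_eq, Set.mem_empty_iff_false, iff_false]
    rintro ⟨h1, h2, h3⟩
    exact hfirst x h1 h2 ((coulombF_eq_zero_iff hL h1).mp h3)
  rw [this]
  simp

/-! ### the parameter `L₁ = -9999/10000` -/

lemma P_growth5 : ∀ k ≥ 4, |A (1 / 10000) (1 / 100) k| * 5 ^ k ≤ 2604 := by
  refine growth (K := 4) (by norm_num) (by norm_num) (by norm_num) (by norm_num) ?_ ?_
  · rw [AP4, abs_of_neg (by norm_num)]; norm_num
  · rw [AP5, abs_of_pos (by norm_num)]; norm_num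

lemma P_growth9 : ∀ k ≥ 8, |A (1 / 10000) (1 / 100) k| * 9 ^ k ≤ 107000 := by
  refine growth (K := 8) (by norm_num) (by norm_num) (by norm_num) (by norm_num) ?_ ?_
  · rw [AP8, abs_of_neg (by norm_num)]; norm_num
  · rw [AP9, abs_of_pos (by norm_num)]; norm_num

lemma P_pos {x : ℝ} (hx0 : 0 < x) (hx2 : x ≤ 2) : 0 < phi (1 / 10000) (1 / 100) x := by
  have hB : ∀ k ≥ 6, |A (1 / 10000) (1 / 100) k| * 5 ^ k ≤ 2604 :=
    fun k hk => P_growth5 k (by omega)
  have ht := (tail hB (by norm_num) hx0.le (by linarith)).2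
  simp only [Finset.sum_range_succ, Finset.sum_range_zero, AP0, AP1, AP2, AP3, AP4, AP5] at ht
  have h1 := (abs_le.mp ht).1
  have h2 : 2604 * (x / 5) ^ 6 / (1 - x / 5) ≤ 9 * x := by
    rw [div_le_iff₀ (by linarith)]
    have h3 : x ^ 5 ≤ 32 := by
      calc x ^ 5 ≤ 2 ^ 5 := pow_le_pow_left₀ hx0.le hx2 5
        _ = 32 := by norm_num
    nlinarith
  have h4 : x ^ 2 ≤ 4 := by nlinarith
  have h5 : x ^ 3 ≤ 8 := by nlinarith
  have h6 : 0 < x ^ 5 := by positivity
  have h7 : 0 < x ^ 2 := by positivity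
  have h8 : x ^ 3 ≤ 4 * x := by nlinarith
  have h9 : x ^ 4 ≤ 8 * x := by nlinarith
  unfold phi
  norm_num at h1
  nlinarith

lemma P_neg : phi (1 / 10000) (1 / 100) 4 < 0 := by
  have hB : ∀ k ≥ 12, |A (1 / 10000) (1 / 100) k| * 9 ^ k ≤ 107000 :=
    fun k hk => P_growth9 k (by omega)
  have ht := (tail (ρ := 4) hB (by norm_num) (by norm_num) (by norm_num)).2
  simp only [Finset.sum_range_succ, Finset.sum_range_zero, AP0, AP1, AP2, AP3, AP4, AP5, AP6, AP7,
    AP8, AP9, AP10, AP11] at ht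
  have h1 := (abs_le.mp ht).2
  unfold phi
  norm_num at h1
  linarith

/-! ### the parameter `L₂ = -7/8` -/

lemma Q_growth5 : ∀ k ≥ 4, |A (1 / 8) (1 / 100) k| * 5 ^ k ≤ 20 := by
  refine growth (K := 4) (by norm_num) (by norm_num) (by norm_num) (by norm_num) ?_ ?_
  · rw [AQ4, abs_of_pos (by norm_num)]; norm_num
  · rw [AQ5, abs_of_pos (by norm_num)]; norm_num

lemma Q_neg : phi (1 / 8) (1 / 100) 2 < 0 := by
  have hB : ∀ k ≥ 8, |A (1 / 8) (1 / 100) k| * 5 ^ k ≤ 20 :=
    fun k hk => Q_growth5 k (by omega)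
  have ht := (tail (ρ := 2) hB (by norm_num) (by norm_num) (by norm_num)).2
  simp only [Finset.sum_range_succ, Finset.sum_range_zero, AQ0, AQ1, AQ2, AQ3, AQ4, AQ5, AQ6, AQ7]
    at ht
  have h1 := (abs_le.mp ht).2
  unfold phi
  norm_num at h1
  linarith

/-- The first positive zero of `F_{L,η}` is not increasing in `L ∈ (-1, ∞)`: for `η = 1/100` the
first zero at `L₁ = -9999/10000` is larger than `2`, while the first zero at the larger parameter
`L₂ = -7/8` is smaller than `2`. -/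
theorem result : ∃ r₁ r₂ : ℝ, IsZeroNumber (-(9999 / 10000)) (1 / 100) 1 r₁ ∧
    IsZeroNumber (-(7 / 8)) (1 / 100) 1 r₂ ∧ r₂ < 2 ∧ 2 < r₁ := by
  obtain ⟨r₁, h1, _, h3, h4⟩ := first_zero (R := 4) (by norm_num)
    (phi_cont P_growth9 (by norm_num) (by norm_num) (by norm_num))
    (by rw [phi_zero]; exact one_pos) P_neg
  obtain ⟨r₂, g1, g2, g3, g4⟩ := first_zero (R := 2) (by norm_num)
    (phi_cont Q_growth5 (by norm_num) (by norm_num) (by norm_num))
    (by rw [phi_zero]; exact one_pos) Q_neg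
  have e1 : (-(9999 / 10000) : ℝ) + 1 = 1 / 10000 := by norm_num
  have e2 : (-(7 / 8) : ℝ) + 1 = 1 / 8 := by norm_num
  refine ⟨r₁, r₂, isZeroNumber_one (by norm_num) h1 (by rw [e1]; exact h3)
    (by rw [e1]; exact h4), isZeroNumber_one (by norm_num) g1 (by rw [e2]; exact g3)
    (by rw [e2]; exact g4), g2, ?_⟩
  by_contra hle
  exact (P_pos h1 (not_lt.mp hle)).ne' h3

end Pool.Agent.Results.MP_75022b_an.NotMonotone
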